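import Pool.Agent.helper72.ODK.Spec

set_option autoImplicit false

namespace Pool.Agent.helper72.UP

open Finset

theorem FIW_arith (A s P Q E1 E2 X Y Z tail tot N : ℝ) (hA : 0 < A) (hP : 0 < P) (hQ : 0 < Q)
    (hE1 : 0 < E1) (hE2 : 0 < E2) (hE : 12 * s < A * (E1 * E2)) (B1 : P * E1 ≤ X) (B2 : Q * E2 ≤ Y)
    (H : Z ≤ X / 2) (T : Y * (X - Z) ≤ tail) (W : A * tot ≤ 3 * N) (S : N ≤ 2 * s * Q * P) : tot < tail := by
  have hX : 0 < X := lt_of_lt_of_le (mul_pos hP hE1) B1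
  have hY : 0 < Y := lt_of_lt_of_le (mul_pos hQ hE2) B2
  have t1 : Y * (X / 2) ≤ tail := by
    refine le_trans ?_ T
    exact mul_le_mul_of_nonneg_left (by linarith) hY.le
  have t2 : (Q * E2) * (P * E1) ≤ Y * X := mul_le_mul B2 B1 (mul_pos hP hE1).le hY.le
  have t3 : (Q * E2) * (P * E1) / 2 ≤ tail := by
    have : Y * (X / 2) = Y * X / 2 := by ring
    linarith
  have t4 : 0 < Q * P := mul_pos hQ hP
  have t5 : (Q * P) * (12 * s) < (Q * P) * (A * (E1 * E2)) := mul_lt_mul_of_pos_left hE t4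
  have t6 : A * ((Q * E2) * (P * E1) / 2) ≤ A * tail := mul_le_mul_of_nonneg_left t3 hA.le
  have t7 : A * tot < A * tail := by
    have e1 : A * ((Q * E2) * (P * E1) / 2) = (Q * P) * (A * (E1 * E2)) / 2 := by ring
    have e2 : 3 * (2 * s * Q * P) = (Q * P) * (12 * s) / 2 := by ring
    linarith
  exact lt_of_mul_lt_mul_left t7 hA.le

theorem FIW (h1 : DIW_stmt) (h2 : TOW_stmt) (h3 : TAW_stmt) (h4 : BIW_stmt) (h5 : HAW_stmt)
    (h6 : CEW_stmt) (h7 : SUW_stmt) : FIW_stmt := by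
  intro n K hn hnK hKb hy hy' hE
  have d := h1 n K (by omega)
  obtain ⟨a, ha⟩ : ∃ a, a = (n - 1) / 2 := ⟨_, rfl⟩
  obtain ⟨b, hb⟩ : ∃ b, b = n / 2 := ⟨_, rfl⟩
  rw [← ha, ← hb] at d
  rw [← hb] at hy hKb
  rw [← ha, ← hb] at hy' hE
  obtain ⟨L, hL⟩ : ∃ L, L = K - 1 + 2 * (Nat.sqrt b + 1) := ⟨_, rfl⟩
  rw [← hL] at hy' hE
  have e1 : b / 2 + (K + 1 - b / 2) = K + 1 := by omega
  have e2 : a / 2 + (L - a / 2) = L := by omega
  have e3 : K + 1 + 2 * (Nat.sqrt b + 1) = L + 2 := by omega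
  have B1 := h4 b (K + 1 - b / 2) hy
  have B2 := h4 a (L - a / 2) hy'
  have H := h5 b (K + 1) (by omega) (by omega)
  have T := h3 a b K L (by omega) (by omega) (by omega) (by omega)
  have W := h2 a b (by omega) (by omega)
  have S := h7 a b (by omega)
  have C := h6 a (by omega)
  rw [e1] at B1
  rw [e2] at B2
  rw [e3] at H
  rw [sub_eq_add_neg, Real.exp_add] at hE
  have hP : (0 : ℝ) < b.choose (b / 2) := by
    exact_mod_cast Nat.choose_pos (by omega)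
  have hQ : (0 : ℝ) < a.choose (a / 2) := by
    exact_mod_cast Nat.choose_pos (by omega)
  have S' : ((a + b).choose (b - 1) : ℝ) ≤ 2 * Real.sqrt a * a.choose (a / 2) * b.choose (b / 2) := by
    have s1 : ((a + b).choose (b - 1) : ℝ) ≤ (2 : ℝ) ^ a * b.choose (b / 2) := by exact_mod_cast S
    exact s1.trans (mul_le_mul_of_nonneg_right C hP.le)
  have key := FIW_arith ((a : ℝ) + 2) (Real.sqrt a) _ _ _ _ _ _ _ _ _ _ (by positivity) hP hQ (Real.exp_pos _)
    (Real.exp_pos _) hE B1 B2 H T W S'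
  rw [← sum_range_add_sum_Ico _ hKb] at key
  have d' : (WW n K : ℝ) = VV n (2 * K + 1) +
      ∑ i ∈ range K, (a.choose i : ℝ) * ((b.choose (i + 2) : ℝ) - b.choose (i + 1)) := by
    exact_mod_cast d
  have f : ∑ i ∈ range K, (a.choose i : ℝ) * ((b.choose (i + 2) : ℝ) - b.choose (i + 1)) =
      - ∑ i ∈ range K, (a.choose i : ℝ) * ((b.choose (i + 1) : ℝ) - b.choose (i + 2)) := by
    rw [← sum_neg_distrib]
    exact sum_congr rfl fun i _ => by ring
  have g : (VV n (2 * K + 1) : ℝ) < WW n K := by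
    rw [d', f]
    linarith
  exact_mod_cast g

end Pool.Agent.helper72.UP
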